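import Pool.Agent.K3h22.EX.Stm6

/-! Brick SUPP of project ET (helper22): two dominant monomials of a polynomial relation. -/

set_option autoImplicit false

namespace Pool.Agent.K3h49.ET

open Pool.Agent.K3h22.EX MvPolynomial

variable {n : ℕ} {B : Finset (Fin n)}

/-- extension of exponents by zero -/
noncomputable def emb (e : {i // i ∈ B} →₀ ℕ) : Fin n →₀ ℕ :=
  e.mapDomain Subtype.val

theorem emb_notMem (e : {i // i ∈ B} →₀ ℕ) {i : Fin n} (hi : i ∉ B) : emb e i = 0 :=
  Finsupp.mapDomain_of_notMem_range _ _ (by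
    rintro ⟨b, rfl⟩
    exact hi b.2)

theorem emb_mem (e : {i // i ∈ B} →₀ ℕ) (b : {i // i ∈ B}) : emb e b = e b :=
  Finsupp.mapDomain_apply Subtype.val_injective _ _

theorem emb_inj : Function.Injective (emb (B := B)) :=
  Finsupp.mapDomain_injective Subtype.val_injective

theorem pr_add (a b : Fin n →₀ ℕ) (w : Fin n → ℝ) : pr (a + b) w = pr a w + pr b w := by
  simp only [pr, ← Finset.sum_add_distrib, Finsupp.add_apply, Nat.cast_add, add_mul]

theorem pr_smul (j : ℕ) (a : Fin n →₀ ℕ) (w : Fin n → ℝ) : pr (j • a) w = j * pr a w := by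
  simp only [pr, Finset.mul_sum, Finsupp.smul_apply, smul_eq_mul, Nat.cast_mul, mul_assoc]

theorem pr_emb (e : {i // i ∈ B} →₀ ℕ) (w : Fin n → ℝ) :
    pr (emb e) w = ∑ b, (e b : ℝ) * w b := by
  have h1 : pr (emb e) w = (emb e).sum fun i c => (c : ℝ) * w i := by
    rw [Finsupp.sum_fintype _ _ (by simp)]
    rfl
  have h2 : ∑ b, (e b : ℝ) * w b = e.sum fun b c => (c : ℝ) * w b := by
    rw [Finsupp.sum_fintype _ _ (by simp)]
  rw [h1, h2, emb, Finsupp.sum_mapDomain_index (by simp) (by intros; push_cast; ring)]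

theorem eq_of_pr {w : Fin n → ℝ}
    (hw : ∀ m : {i // i ∈ B} → ℤ, m ≠ 0 → ∑ b, (m b : ℝ) * w b ≠ 0)
    {e e' : {i // i ∈ B} →₀ ℕ} (h : ∑ b, (e b : ℝ) * w b = ∑ b, (e' b : ℝ) * w b) : e = e' := by
  by_contra hne
  refine hw (fun b => (e b : ℤ) - e' b) ?_ ?_
  · intro h0
    refine hne (Finsupp.ext fun b => ?_)
    have := congrFun h0 b
    simp only [Pi.zero_apply] at this
    omega
  · have : ∑ b, (((e b : ℤ) - e' b : ℤ) : ℝ) * w b =
        ∑ b, (e b : ℝ) * w b - ∑ b, (e' b : ℝ) * w b := by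
      rw [← Finset.sum_sub_distrib]
      refine Finset.sum_congr rfl fun b _ => ?_
      push_cast
      ring
    rw [this, h, sub_self]

variable {A : Type} [CommRing A]

/-- the polynomial `∑ g_j y^{j μ}` -/
noncomputable def ev (g : Polynomial (MvPolynomial {i // i ∈ B} A)) (μ : Fin n →₀ ℕ) :
    MvPolynomial (Fin n) A :=
  g.eval₂ (rename (R := A) (Subtype.val : {i // i ∈ B} → Fin n)).toRingHom (monomial μ 1)

theorem ev_eq (g : Polynomial (MvPolynomial {i // i ∈ B} A)) (μ : Fin n →₀ ℕ) :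
    ev g μ = ∑ j ∈ g.support, rename (Subtype.val : {i // i ∈ B} → Fin n) (g.coeff j) *
      monomial (j • μ) 1 := by
  rw [ev, Polynomial.eval₂_eq_sum, Polynomial.sum_def]
  refine Finset.sum_congr rfl fun j _ => ?_
  rw [monomial_pow, one_pow]
  rfl

theorem term_ne {p : MvPolynomial {i // i ∈ B} A} {ν E : Fin n →₀ ℕ}
    (h : coeff E (rename (Subtype.val : {i // i ∈ B} → Fin n) p * monomial ν 1) ≠ 0) :
    ∃ e ∈ p.support, E = emb e + ν := by
  rw [coeff_mul_monomial'] at h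
  split_ifs at h with h1
  · rw [mul_one] at h
    obtain ⟨e, he, he'⟩ := coeff_rename_ne_zero _ _ _ h
    refine ⟨e, mem_support_iff.2 he', ?_⟩
    rw [emb, he, tsub_add_cancel_of_le h1]
  · exact absurd rfl h

theorem coeff_ev_ne {g : Polynomial (MvPolynomial {i // i ∈ B} A)} {μ E : Fin n →₀ ℕ}
    (h : coeff E (ev g μ) ≠ 0) :
    ∃ j ∈ g.support, ∃ e ∈ (g.coeff j).support, E = emb e + j • μ := by
  rw [ev_eq, coeff_sum] at h
  obtain ⟨j, hj, hj'⟩ := Finset.exists_ne_zero_of_sum_ne_zero h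
  exact ⟨j, hj, term_ne hj'⟩

theorem coeff_ev {g : Polynomial (MvPolynomial {i // i ∈ B} A)} {μ : Fin n →₀ ℕ}
    (hμ : ∀ i ∈ B, μ i = 0) (hμ0 : μ ≠ 0) (j : ℕ) (e : {i // i ∈ B} →₀ ℕ) :
    coeff (emb e + j • μ) (ev g μ) = coeff e (g.coeff j) := by
  obtain ⟨i, hi⟩ : ∃ i, μ i ≠ 0 := by
    by_contra hcon
    push Not at hcon
    exact hμ0 (Finsupp.ext hcon)
  have hiB : i ∉ B := fun h => hi (hμ i h)
  rw [ev_eq, coeff_sum]
  have h1 : ∀ j' ∈ g.support, j' ≠ j → coeff (emb e + j • μ)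
      (rename (Subtype.val : {i // i ∈ B} → Fin n) (g.coeff j') * monomial (j' • μ) 1) = 0 := by
    intro j' _ hne
    by_contra hcon
    obtain ⟨e', _, he'⟩ := term_ne hcon
    have h2 := DFunLike.congr_fun he' i
    simp only [Finsupp.add_apply, emb_notMem _ hiB, zero_add, Finsupp.smul_apply,
      smul_eq_mul] at h2
    exact hne (Nat.eq_of_mul_eq_mul_right (Nat.pos_of_ne_zero hi) h2).symm
  have h3 : coeff (emb e + j • μ)
      (rename (Subtype.val : {i // i ∈ B} → Fin n) (g.coeff j) * monomial (j • μ) 1) =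
      coeff e (g.coeff j) := by
    rw [coeff_mul_monomial, mul_one, emb, coeff_rename_mapDomain _ Subtype.val_injective]
  by_cases hj : j ∈ g.support
  · rw [Finset.sum_eq_single_of_mem j hj h1, h3]
  · rw [Finset.sum_eq_zero fun j' hj' => h1 j' hj' fun h => hj (h ▸ hj')]
    rw [Polynomial.notMem_support_iff.1 hj, coeff_zero]

theorem t_SUPP : S_SUPP := by
  intro n s B
  refine ⟨fun g μ hμ hμ0 hg => ⟨?_, fun w hw ht => ?_⟩, fun G w hw ht => ?_⟩
  · change ev g μ ≠ 0
    intro h0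
    obtain ⟨j, hj⟩ := Polynomial.support_nonempty.2 hg
    have hj' : g.coeff j ≠ 0 := Polynomial.mem_support_iff.1 hj
    obtain ⟨e, he⟩ := ne_zero_iff.1 hj'
    have h1 := coeff_ev (g := g) hμ hμ0 j e
    rw [h0, coeff_zero] at h1
    exact he h1.symm
  · change Twice (ev g μ).support w at ht
    obtain ⟨a, ha, b, hb, hab, hpr, hmax⟩ := ht
    obtain ⟨j, hj, e, he, rfl⟩ := coeff_ev_ne (mem_support_iff.1 ha)
    obtain ⟨k, hk, e', he', rfl⟩ := coeff_ev_ne (mem_support_iff.1 hb)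
    have hle : ∀ l ∈ g.support, ∀ e'' ∈ (g.coeff l).support,
        ∑ b, (e'' b : ℝ) * w b + l * pr μ w ≤ ∑ b, (e b : ℝ) * w b + j * pr μ w := by
      intro l _ e'' he''
      have h1 : emb e'' + l • μ ∈ (ev g μ).support := by
        rw [mem_support_iff, coeff_ev hμ hμ0]
        exact mem_support_iff.1 he''
      have h2 := hmax _ h1
      simpa only [pr_add, pr_smul, pr_emb] using h2
    simp only [pr_add, pr_smul, pr_emb] at hpr
    rcases lt_trichotomy j k with h | h | h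
    · exact ⟨j, hj, k, hk, h, e, he, e', he', hpr, hle⟩
    · subst h
      have h1 : e = e' := eq_of_pr hw (by linarith)
      exact absurd (by rw [h1]) hab
    · exact ⟨k, hk, j, hj, h, e', he', e, he, hpr.symm, fun l hl e'' he'' => by
        rw [← hpr]
        exact hle l hl e'' he''⟩
  · obtain ⟨a, ha, b, hb, hab, hpr, _⟩ := ht
    obtain ⟨e, he, _⟩ := coeff_rename_ne_zero _ _ _ (mem_support_iff.1 ha)
    obtain ⟨e', he', _⟩ := coeff_rename_ne_zero _ _ _ (mem_support_iff.1 hb)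
    subst he he'
    have h1 : pr (emb e) w = pr (emb e') w := hpr
    rw [pr_emb, pr_emb] at h1
    exact hab (by rw [eq_of_pr hw h1])

end Pool.Agent.K3h49.ET
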