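import Pool.Agent.K3h22.EX.Stm6

/-! Brick VAL of project ET (helper22): a lexicographic valuation ring. -/

set_option autoImplicit false

namespace Pool.Agent.K3h49.ET

open Pool.Agent.K3h22.EX

/-- the first nonzero entry is positive -/
def LPos {d : ℕ} (e : Fin d → ℤ) : Prop := ∃ i, (∀ j < i, e j = 0) ∧ 0 < e i

theorem LPos.add {d : ℕ} {e f : Fin d → ℤ} (he : LPos e) (hf : LPos f) : LPos (e + f) := by
  obtain ⟨i, hi, hi'⟩ := he
  obtain ⟨j, hj, hj'⟩ := hf
  rcases lt_trichotomy i j with h | h | h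
  · exact ⟨i, fun l hl => by simp [hi l hl, hj l (hl.trans h)], by simp [hj i h, hi']⟩
  · subst h
    refine ⟨i, fun l hl => by simp [hi l hl, hj l hl], ?_⟩
    simp only [Pi.add_apply]
    omega
  · exact ⟨j, fun l hl => by simp [hi l (hl.trans h), hj l hl], by simp [hi j h, hj']⟩

theorem LPos.ne_zero {d : ℕ} {e : Fin d → ℤ} (he : LPos e) : e ≠ 0 := by
  rintro rfl
  obtain ⟨i, _, hi⟩ := he
  simp at hi

variable {K F : Type} [Field K] [Field F] [Algebra K F] {d : ℕ}

/-- the Laurent monomial with exponents `e` -/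
def mon (t : Fin d → F) (e : Fin d → ℤ) : F := ∏ i, t i ^ e i

theorem mon_add {t : Fin d → F} (ht : ∀ i, t i ≠ 0) (e f : Fin d → ℤ) :
    mon t (e + f) = mon t e * mon t f := by
  simp only [mon, Pi.add_apply, ← Finset.prod_mul_distrib]
  exact Finset.prod_congr rfl fun i _ => zpow_add₀ (ht i) _ _

/-- the span of the monomials with positive exponents -/
def pp (K : Type) {F : Type} [Field K] [Field F] [Algebra K F] {d : ℕ} (t : Fin d → F) :
    Submodule K F := Submodule.span K (mon t '' {e | LPos e})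

theorem pp_mul {t : Fin d → F} (ht : ∀ i, t i ≠ 0) {x y : F} (hx : x ∈ pp K t) (hy : y ∈ pp K t) :
    x * y ∈ pp K t := by
  have h : pp K t * pp K t ≤ pp K t := by
    unfold pp
    rw [Submodule.span_mul_span]
    refine Submodule.span_mono ?_
    rintro _ ⟨_, ⟨e, he, rfl⟩, _, ⟨f, hf, rfl⟩, rfl⟩
    exact ⟨e + f, LPos.add he hf, mon_add ht e f⟩
  exact h (Submodule.mul_mem_mul hx hy)

theorem one_notMem {t : Fin d → F} (ht : ∀ i, t i ≠ 0) (hi : AlgebraicIndependent K t) :
    (1 : F) ∉ pp K t := by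
  intro h
  rw [pp, Finsupp.mem_span_image_iff_linearCombination] at h
  obtain ⟨l, hl, hl1⟩ := h
  obtain ⟨N, hN⟩ : ∃ N : ℕ, ∀ e ∈ l.support, ∀ i, -(N : ℤ) ≤ e i := by
    refine ⟨l.support.sup fun e => Finset.univ.sup fun i => (e i).natAbs, fun e he i => ?_⟩
    have h1 : (e i).natAbs ≤ l.support.sup fun e => Finset.univ.sup fun i => (e i).natAbs :=
      le_trans (Finset.le_sup (f := fun i => (e i).natAbs) (Finset.mem_univ i))
        (Finset.le_sup (f := fun e : Fin d → ℤ => Finset.univ.sup fun i => (e i).natAbs) he)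
    omega
  let sh : (Fin d → ℤ) → (Fin d →₀ ℕ) := fun e => Finsupp.equivFunOnFinite.symm
    fun i => (e i + N).toNat
  let q : MvPolynomial (Fin d) K := MvPolynomial.monomial (sh 0) 1 -
    ∑ e ∈ l.support, MvPolynomial.monomial (sh e) (l e)
  have hmon : ∀ e : Fin d → ℤ, (∀ i, -(N : ℤ) ≤ e i) → ∀ c : K,
      MvPolynomial.aeval t (MvPolynomial.monomial (sh e) c) =
        algebraMap K F c * (mon t e * mon t fun _ => (N : ℤ)) := by
    intro e he c
    rw [MvPolynomial.aeval_monomial, ← mon_add ht, Finsupp.prod_fintype _ _ (by simp)]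
    congr 1
    refine Finset.prod_congr rfl fun i _ => ?_
    have h1 : (((e i + N).toNat : ℕ) : ℤ) = e i + N := Int.toNat_of_nonneg (by have := he i; omega)
    simp only [sh, Finsupp.equivFunOnFinite_symm_apply_apply, Pi.add_apply]
    rw [← zpow_natCast, h1]
  have hq : MvPolynomial.aeval t q = 0 := by
    simp only [q, map_sub, map_sum]
    rw [hmon 0 (fun i => by simp) 1, Finset.sum_congr rfl fun e he => hmon e (hN e he) (l e)]
    have h2 : ∑ e ∈ l.support, algebraMap K F (l e) * (mon t e * mon t fun _ => (N : ℤ)) =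
        (∑ e ∈ l.support, l e • mon t e) * mon t fun _ => (N : ℤ) := by
      rw [Finset.sum_mul]
      exact Finset.sum_congr rfl fun e _ => by rw [Algebra.smul_def, mul_assoc]
    rw [h2]
    rw [Finsupp.linearCombination_apply, Finsupp.sum] at hl1
    rw [hl1]
    simp [mon]
  have hq0 : q = 0 := hi (by rw [hq, map_zero])
  have hc : MvPolynomial.coeff (sh 0) q = 1 := by
    simp only [q, MvPolynomial.coeff_sub, MvPolynomial.coeff_sum, MvPolynomial.coeff_monomial]
    rw [if_pos trivial, Finset.sum_eq_zero, sub_zero]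
    intro e he
    rw [if_neg]
    intro h
    have he0 : LPos e := hl he
    refine he0.ne_zero ?_
    funext i
    have h1 := DFunLike.congr_fun h i
    simp only [sh, Finsupp.equivFunOnFinite_symm_apply_apply, Pi.zero_apply, zero_add] at h1
    have h2 := hN e he i
    simp only [Pi.zero_apply]
    omega
  rw [hq0] at hc
  simp at hc

/-- `K + p` -/
def rg {t : Fin d → F} (ht : ∀ i, t i ≠ 0) (K : Type) [Field K] [Algebra K F] : Subring F where
  carrier := {x | ∃ c : K, x - algebraMap K F c ∈ pp K t}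
  mul_mem' := by
    rintro x y ⟨c, hc⟩ ⟨c', hc'⟩
    refine ⟨c * c', ?_⟩
    have h : x * y - algebraMap K F (c * c') =
        (x - algebraMap K F c) * (y - algebraMap K F c') + c' • (x - algebraMap K F c) +
          c • (y - algebraMap K F c') := by
      rw [Algebra.smul_def, Algebra.smul_def, map_mul]
      ring
    rw [h]
    exact add_mem (add_mem (pp_mul ht hc hc') (Submodule.smul_mem _ _ hc))
      (Submodule.smul_mem _ _ hc')
  one_mem' := ⟨1, by simp⟩
  add_mem' := by
    rintro x y ⟨c, hc⟩ ⟨c', hc'⟩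
    refine ⟨c + c', ?_⟩
    have h : x + y - algebraMap K F (c + c') =
        (x - algebraMap K F c) + (y - algebraMap K F c') := by
      rw [map_add]
      ring
    rw [h]
    exact add_mem hc hc'
  zero_mem' := ⟨0, by simp⟩
  neg_mem' := by
    rintro x ⟨c, hc⟩
    refine ⟨-c, ?_⟩
    have h : -x - algebraMap K F (-c) = -(x - algebraMap K F c) := by
      rw [map_neg]
      ring
    rw [h]
    exact neg_mem hc

theorem pp_le {t : Fin d → F} (ht : ∀ i, t i ≠ 0) {x : F} (hx : x ∈ pp K t) : x ∈ rg ht K :=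
  ⟨0, by simpa using hx⟩

/-- the prime ideal `p` -/
def idl {t : Fin d → F} (ht : ∀ i, t i ≠ 0) (K : Type) [Field K] [Algebra K F] :
    Ideal (rg ht K) where
  carrier := {x | (x : F) ∈ pp K t}
  add_mem' := fun {x y} hx hy => by
    change ((x : F) + y) ∈ pp K t
    exact add_mem hx hy
  zero_mem' := by
    change (0 : F) ∈ pp K t
    exact zero_mem _
  smul_mem' := fun x y hy => by
    change ((x : F) * y) ∈ pp K t
    obtain ⟨c, hc⟩ := x.2
    have h : (x : F) * y = (x - algebraMap K F c) * y + c • (y : F) := by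
      rw [Algebra.smul_def]
      ring
    rw [h]
    exact add_mem (pp_mul ht hc hy) (Submodule.smul_mem _ _ hy)

theorem idl_prime {t : Fin d → F} (ht : ∀ i, t i ≠ 0) (hi : AlgebraicIndependent K t) :
    (idl ht K).IsPrime := by
  refine ⟨?_, ?_⟩
  · intro h
    refine one_notMem ht hi ?_
    have : (1 : rg ht K) ∈ idl ht K := by rw [h]; trivial
    exact this
  · intro x y hxy
    by_contra hcon
    push Not at hcon
    obtain ⟨hx, hy⟩ := hcon
    obtain ⟨c, hc⟩ := x.2
    obtain ⟨c', hc'⟩ := y.2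
    have hxy' : ((x : F) * y) ∈ pp K t := hxy
    have hcx : c ≠ 0 := by
      rintro rfl
      refine hx ?_
      change (x : F) ∈ pp K t
      simpa using hc
    have hcy : c' ≠ 0 := by
      rintro rfl
      refine hy ?_
      change (y : F) ∈ pp K t
      simpa using hc'
    have h : algebraMap K F (c * c') = x * y -
        (((x : F) - algebraMap K F c) * (y - algebraMap K F c') +
          c' • ((x : F) - algebraMap K F c) + c • ((y : F) - algebraMap K F c')) := by
      rw [Algebra.smul_def, Algebra.smul_def, map_mul]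
      ring
    have h1 : algebraMap K F (c * c') ∈ pp K t := by
      rw [h]
      exact sub_mem hxy' (add_mem (add_mem (pp_mul ht hc hc') (Submodule.smul_mem _ _ hc))
        (Submodule.smul_mem _ _ hc'))
    refine one_notMem ht hi ?_
    have h2 := Submodule.smul_mem (pp K t) (c * c')⁻¹ h1
    rwa [Algebra.smul_def, ← map_mul, inv_mul_cancel₀ (mul_ne_zero hcx hcy), map_one] at h2

theorem t_VAL : S_VAL := by
  intro K F _ _ _ d t hi
  have ht : ∀ i, t i ≠ 0 := fun i => hi.ne_zero i
  have : (idl ht K).IsPrime := idl_prime ht hi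
  obtain ⟨O, hO, hloc⟩ := LocalSubring.exists_le_valuationSubring
    (LocalSubring.ofPrime (rg ht K) (idl ht K))
  have hle := LocalSubring.le_ofPrime (rg ht K) (idl ht K)
  refine ⟨O, fun x => hO (hle ⟨x, by simp⟩), fun e he => ?_⟩
  have hx : mon t e ∈ pp K t := Submodule.subset_span ⟨e, he, rfl⟩
  have hxr := pp_le ht hx
  have hxO : mon t e ∈ O := hO (hle hxr)
  have key : (⟨mon t e, hxO⟩ : O) ∈ IsLocalRing.maximalIdeal O := by
    rw [IsLocalRing.mem_maximalIdeal, mem_nonunits_iff]
    intro hu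
    have h1 : IsUnit (⟨mon t e, hle hxr⟩ :
        (LocalSubring.ofPrime (rg ht K) (idl ht K)).toSubring) := by
      refine hloc.map_nonunit _ ?_
      exact hu
    have h2 := (IsLocalization.AtPrime.to_map_mem_maximal_iff
      (LocalSubring.ofPrime (rg ht K) (idl ht K)).toSubring (idl ht K) (⟨mon t e, hxr⟩ : rg ht K)).2 hx
    rw [IsLocalRing.mem_maximalIdeal, mem_nonunits_iff] at h2
    exact h2 h1
  exact (ValuationSubring.valuation_lt_one_iff O ⟨mon t e, hxO⟩).1 key

end Pool.Agent.K3h49.ET
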